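import Mathlib

set_option autoImplicit false

namespace Pool.Agent.Results.MP_e1bcf3_nt.PermHalf

open Finset

/-- Weighted orbit counting: if `τ ^ p = 1` on a finite type and `w` is `τ`-invariant with values
in `ZMod p`, then the sum of `w` is the sum of `w` over the fixed points of `τ`. -/
theorem sum_eq_sum_fixed {α : Type*} [Fintype α] [DecidableEq α] (p : ℕ) [Fact p.Prime]
    (τ : Equiv.Perm α) (hτ : τ ^ p = 1) (w : α → ZMod p) (hw : ∀ x, w (τ x) = w x) :
    ∑ x, w x = ∑ x ∈ univ.filter (fun x => τ x = x), w x := by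
  classical
  have key : ∀ c : ZMod p, (((univ.filter (fun x => w x = c)).card : ℕ) : ZMod p)
      = (((univ.filter (fun x => τ x = x ∧ w x = c)).card : ℕ) : ZMod p) := by
    intro c
    let σ : Equiv.Perm {x // w x = c} := τ.subtypePerm (fun x => by rw [hw])
    have hσ : σ ^ p ^ 1 = 1 := by
      rw [pow_one]
      ext x
      have h1 : ∀ (k : ℕ) (x : {x // w x = c}), (((σ ^ k) x : {x // w x = c}) : α) = (τ ^ k) x := by
        intro k
        induction k with
        | zero => intro x; simp
        | succ k ih =>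
          intro x
          rw [pow_succ, pow_succ, Equiv.Perm.mul_apply, Equiv.Perm.mul_apply, ih]
          rfl
      rw [h1, hτ]; simp
    have h2 := Equiv.Perm.card_compl_support_modEq hσ
    have h3 : Fintype.card {x // w x = c} = (univ.filter (fun x => w x = c)).card :=
      Fintype.card_subtype _
    have h4 : σ.supportᶜ.card = (univ.filter (fun x => τ x = x ∧ w x = c)).card := by
      apply Finset.card_bij (fun (x : {x // w x = c}) _ => (x : α))
      · intro x hx
        simp only [Finset.mem_compl, Equiv.Perm.mem_support, not_not] at hx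
        simp only [Finset.mem_filter, Finset.mem_univ, true_and]
        refine ⟨?_, x.2⟩
        have := congrArg Subtype.val hx
        simpa [σ] using this
      · intro x _ y _ h
        exact Subtype.ext h
      · intro y hy
        simp only [Finset.mem_filter, Finset.mem_univ, true_and] at hy
        refine ⟨⟨y, hy.2⟩, ?_, rfl⟩
        simp only [Finset.mem_compl, Equiv.Perm.mem_support, not_not]
        apply Subtype.ext
        simpa [σ] using hy.1
    rw [h3, h4] at h2
    exact ((ZMod.natCast_eq_natCast_iff _ _ _).2 h2).symm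
  have e1 : ∑ x, w x = ∑ c : ZMod p, (((univ.filter (fun x => w x = c)).card : ℕ) : ZMod p) * c := by
    rw [← Finset.sum_fiberwise univ w (fun x => w x)]
    apply Finset.sum_congr rfl
    intro c _
    rw [Finset.sum_congr rfl (g := fun _ => c)]
    · simp
    · intro x hx
      exact (Finset.mem_filter.1 hx).2
  have e2 : ∑ x ∈ univ.filter (fun x => τ x = x), w x
      = ∑ c : ZMod p, (((univ.filter (fun x => τ x = x ∧ w x = c)).card : ℕ) : ZMod p) * c := by
    rw [← Finset.sum_fiberwise (univ.filter (fun x => τ x = x)) w (fun x => w x)]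
    apply Finset.sum_congr rfl
    intro c _
    rw [Finset.filter_filter, Finset.sum_congr rfl (g := fun _ => c)]
    · simp
    · intro x hx
      exact (Finset.mem_filter.1 hx).2.2
  rw [e1, e2]
  exact Finset.sum_congr rfl (fun c _ => by rw [key])

/-- The matrix `|j-k| + δ_{jk}` with indices in `ZMod p` (representatives `0, …, p-1`) and values
in `ZMod p`. -/
private def A (p : ℕ) (j k : ZMod p) : ZMod p :=
  ((|(j.val : ℤ) - (k.val : ℤ)| + (if j = k then 1 else 0) : ℤ) : ZMod p)

private def eps (p : ℕ) (j : ZMod p) : ZMod p := if j = -1 then -1 else 1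

theorem val_succ (p : ℕ) [Fact p.Prime] (j : ZMod p) :
    (j = -1 ∧ j.val + 1 = p ∧ (j + 1).val = 0) ∨ (j ≠ -1 ∧ (j + 1).val = j.val + 1) := by
  have hp : p.Prime := Fact.out
  have h1 : (1 : ZMod p).val = 1 := by
    have : Fact (1 < p) := ⟨hp.one_lt⟩
    exact ZMod.val_one p
  by_cases h : j = -1
  · left
    subst h
    refine ⟨rfl, ?_, by simp⟩
    have := ZMod.neg_val (1 : ZMod p)
    rw [this, if_neg (by exact one_ne_zero), h1]
    have := hp.one_lt
    omega
  · right
    refine ⟨h, ?_⟩
    have hlt := ZMod.val_lt j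
    have h2 : j.val + (1 : ZMod p).val < p := by
      rw [h1]
      by_contra hcon
      have h3 : j.val + 1 = p := by omega
      apply h
      have h4 : ((j.val + 1 : ℕ) : ZMod p) = 0 := by rw [h3]; simp
      rw [Nat.cast_add, ZMod.natCast_zmod_val, Nat.cast_one] at h4
      exact eq_neg_of_add_eq_zero_left h4
    rw [ZMod.val_add_of_lt h2, h1]

theorem A_shift (p : ℕ) [Fact p.Prime] (j k : ZMod p) :
    A p (j + 1) (k + 1) = eps p j * eps p k * A p j k := by
  have hp : p.Prime := Fact.out
  unfold A eps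
  by_cases hjk : j = k
  · subst hjk
    by_cases h : j = -1
    · simp [h]
    · simp [h]
  · have hjk' : ¬ (j + 1 = k + 1) := fun h => hjk (add_right_cancel h)
    rw [if_neg hjk, if_neg hjk']
    rcases val_succ p j with ⟨hj, hj1, hj2⟩ | ⟨hj, hj1⟩
    · rcases val_succ p k with ⟨hk, _, _⟩ | ⟨hk, hk1⟩
      · exact absurd (hj.trans hk.symm) hjk
      · rw [hj2, hk1, if_pos hj, if_neg hk]
        have hlt : k.val < p := ZMod.val_lt k
        have a1 : |((0 : ℕ) : ℤ) - ((k.val + 1 : ℕ) : ℤ)| = (k.val : ℤ) + 1 := by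
          rw [abs_sub_comm, abs_of_nonneg] <;> push_cast <;> omega
        have a2 : |(j.val : ℤ) - (k.val : ℤ)| = (p : ℤ) - 1 - k.val := by
          have : (j.val : ℤ) = (p : ℤ) - 1 := by omega
          rw [this, abs_of_nonneg]
          omega
        rw [a1, a2]
        push_cast
        rw [CharP.cast_eq_zero (ZMod p) p]
        ring
    · rcases val_succ p k with ⟨hk, hk1, hk2⟩ | ⟨hk, hk1⟩
      · rw [hj1, hk2, if_neg hj, if_pos hk]
        have hlt : j.val < p := ZMod.val_lt j
        have a1 : |((j.val + 1 : ℕ) : ℤ) - ((0 : ℕ) : ℤ)| = (j.val : ℤ) + 1 := by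
          rw [abs_of_nonneg] <;> push_cast <;> omega
        have a2 : |(j.val : ℤ) - (k.val : ℤ)| = (p : ℤ) - 1 - j.val := by
          have : (k.val : ℤ) = (p : ℤ) - 1 := by omega
          rw [this, abs_sub_comm, abs_of_nonneg]
          omega
        rw [a1, a2]
        push_cast
        rw [CharP.cast_eq_zero (ZMod p) p]
        ring
      · rw [hj1, hk1, if_neg hj, if_neg hk]
        have : ((j.val + 1 : ℕ) : ℤ) - ((k.val + 1 : ℕ) : ℤ) = (j.val : ℤ) - k.val := by
          push_cast; ring
        rw [this]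
        simp

/-- weight of a permutation -/
private def w (p : ℕ) [Fact p.Prime] (σ : Equiv.Perm (ZMod p)) : ZMod p := ∏ i, A p (σ i) i

theorem eps_prod_sq (p : ℕ) [Fact p.Prime] : (∏ i, eps p i) * (∏ i, eps p i) = 1 := by
  rw [← Finset.prod_mul_distrib]
  apply Finset.prod_eq_one
  intro i _
  unfold eps
  split_ifs <;> simp

theorem w_conj (p : ℕ) [Fact p.Prime] (σ : Equiv.Perm (ZMod p)) :
    w p (Equiv.addRight (1 : ZMod p) * σ * (Equiv.addRight (1 : ZMod p))⁻¹) = w p σ := by
  unfold w
  rw [← Equiv.prod_comp (Equiv.addRight (1 : ZMod p))]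
  have : ∀ i : ZMod p, A p ((Equiv.addRight (1 : ZMod p) * σ * (Equiv.addRight (1 : ZMod p))⁻¹)
      ((Equiv.addRight (1 : ZMod p)) i)) ((Equiv.addRight (1 : ZMod p)) i)
      = eps p (σ i) * eps p i * A p (σ i) i := by
    intro i
    rw [← A_shift]
    simp [Equiv.Perm.mul_apply]
  rw [Finset.prod_congr rfl (fun i _ => this i), Finset.prod_mul_distrib, Finset.prod_mul_distrib,
    Equiv.prod_comp σ (fun i => eps p i), eps_prod_sq, one_mul]

theorem A_add (p : ℕ) [Fact p.Prime] (a i : ZMod p) (ha : a ≠ 0) :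
    A p (a + i) i = a * (if p ≤ a.val + i.val then -1 else 1) := by
  have hp : p.Prime := Fact.out
  unfold A
  have hne : ¬ (a + i = i) := by
    intro h; exact ha (by simpa using h)
  rw [if_neg hne]
  have hlt : i.val < p := ZMod.val_lt i
  have hlta : a.val < p := ZMod.val_lt a
  split_ifs with h
  · have h1 : (a + i).val = a.val + i.val - p := by
      rw [ZMod.val_add, Nat.mod_eq_sub_mod h, Nat.mod_eq_of_lt]
      omega
    have h2 : |((a + i).val : ℤ) - (i.val : ℤ)| = (p : ℤ) - a.val := by
      rw [h1, Nat.cast_sub h, abs_sub_comm, abs_of_nonneg] <;> push_cast <;> omega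
    rw [h2]
    push_cast
    rw [CharP.cast_eq_zero (ZMod p) p, ZMod.natCast_zmod_val]
    ring
  · push Not at h
    have h1 : (a + i).val = a.val + i.val := ZMod.val_add_of_lt h
    have h2 : |((a + i).val : ℤ) - (i.val : ℤ)| = (a.val : ℤ) := by
      rw [h1, abs_of_nonneg] <;> push_cast <;> omega
    rw [h2]
    push_cast
    rw [ZMod.natCast_zmod_val]
    ring

theorem card_wrap (p : ℕ) [Fact p.Prime] (a : ZMod p) :
    (univ.filter (fun i : ZMod p => p ≤ a.val + i.val)).card = a.val := by
  have hlta : a.val < p := ZMod.val_lt a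
  have : (univ.filter (fun i : ZMod p => p ≤ a.val + i.val)).card = (Finset.Ico (p - a.val) p).card := by
    apply Finset.card_bij (fun i _ => i.val)
    · intro i hi
      simp only [Finset.mem_filter, Finset.mem_univ, true_and] at hi
      have := ZMod.val_lt i
      rw [Finset.mem_Ico]
      omega
    · intro i _ j _ h
      exact ZMod.val_injective p h
    · intro m hm
      rw [Finset.mem_Ico] at hm
      refine ⟨(m : ZMod p), ?_, ZMod.val_natCast_of_lt hm.2⟩
      simp only [Finset.mem_filter, Finset.mem_univ, true_and]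
      rw [ZMod.val_natCast_of_lt hm.2]
      omega
  rw [this, Nat.card_Ico]
  omega

theorem w_rot (p : ℕ) [Fact p.Prime] (a : ZMod p) :
    w p (Equiv.addLeft a) = if a = 0 then 1 else a * (-1) ^ a.val := by
  unfold w
  split_ifs with h
  · subst h
    apply Finset.prod_eq_one
    intro i _
    simp [A]
  · have : ∀ i : ZMod p, A p ((Equiv.addLeft a) i) i
        = a * (if p ≤ a.val + i.val then -1 else 1) := fun i => A_add p a i h
    rw [Finset.prod_congr rfl (fun i _ => this i), Finset.prod_mul_distrib, Finset.prod_const,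
      Finset.card_univ, ZMod.card, ZMod.pow_card, Finset.prod_ite, Finset.prod_const_one, mul_one,
      Finset.prod_const, card_wrap]

theorem alt_sum (r : ℕ) {R : Type*} [CommRing R] :
    ∑ m ∈ Finset.range (2 * r + 1), (m : R) * (-1) ^ m = (r : R) := by
  induction r with
  | zero => simp
  | succ r ih =>
    rw [show 2 * (r + 1) + 1 = (2 * r + 1) + 1 + 1 by ring, Finset.sum_range_succ,
      Finset.sum_range_succ, ih]
    have h1 : ((-1 : R)) ^ (2 * r + 1) = -1 := Odd.neg_one_pow ⟨r, rfl⟩
    have h2 : ((-1 : R)) ^ (2 * r + 1 + 1) = 1 := Even.neg_one_pow ⟨r + 1, by ring⟩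
    rw [h1, h2]
    push_cast
    ring

theorem main_zmod (p : ℕ) [Fact p.Prime] (hp2 : p ≠ 2) :
    2 * ∑ σ : Equiv.Perm (ZMod p), w p σ = 1 := by
  classical
  have hp : p.Prime := Fact.out
  set c : Equiv.Perm (ZMod p) := Equiv.addRight (1 : ZMod p) with hc
  let τ : Equiv.Perm (Equiv.Perm (ZMod p)) := (MulAut.conj c).toEquiv
  have hτapp : ∀ σ, τ σ = c * σ * c⁻¹ := fun σ => rfl
  have hcp : ∀ k : ℕ, ∀ x : ZMod p, (c ^ k) x = x + k := by
    intro k
    induction k with
    | zero => intro x; simp
    | succ k ih =>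
      intro x
      rw [pow_succ', Equiv.Perm.mul_apply, ih, hc]
      simp [add_assoc]
  have hτpow : ∀ (k : ℕ) (σ), (τ ^ k) σ = c ^ k * σ * (c ^ k)⁻¹ := by
    intro k
    induction k with
    | zero => intro σ; simp
    | succ k ih =>
      intro σ
      rw [pow_succ', Equiv.Perm.mul_apply, ih, hτapp, pow_succ']
      group
  have hcp1 : c ^ p = 1 := by
    ext x
    rw [hcp]
    simp
  have hτ : τ ^ p = 1 := by
    ext σ x
    rw [hτpow, hcp1]
    simp
  rw [sum_eq_sum_fixed p τ hτ (w p) (fun σ => w_conj p σ)]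
  have hfix : ∀ σ : Equiv.Perm (ZMod p), τ σ = σ → σ = Equiv.addLeft (σ 0) := by
    intro σ h
    have h1 : ∀ x : ZMod p, σ (x + 1) = σ x + 1 := by
      intro x
      have h2 : c * σ = σ * c := by
        rw [hτapp] at h
        calc c * σ = (c * σ * c⁻¹) * c := by group
          _ = σ * c := by rw [h]
      have h3 := congrArg (fun f : Equiv.Perm (ZMod p) => f x) h2
      simp only [Equiv.Perm.mul_apply] at h3
      exact h3.symm
    have h2 : ∀ k : ℕ, σ (k : ZMod p) = σ 0 + k := by
      intro k
      induction k with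
      | zero => simp
      | succ k ih =>
        rw [Nat.cast_succ, h1, ih, add_assoc]
    ext x
    have h3 := h2 x.val
    rw [ZMod.natCast_zmod_val] at h3
    rw [h3]
    rfl
  have hsum : ∑ σ ∈ univ.filter (fun σ => τ σ = σ), w p σ
      = ∑ a : ZMod p, w p (Equiv.addLeft a) := by
    apply Finset.sum_nbij' (fun σ => σ 0) (fun a => Equiv.addLeft a)
    · intro σ _; exact Finset.mem_univ _
    · intro a _
      rw [Finset.mem_filter]
      refine ⟨Finset.mem_univ _, ?_⟩
      rw [hτapp]
      ext x
      simp [Equiv.Perm.mul_apply, hc]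
      ring
    · intro σ hσ
      exact (hfix σ (Finset.mem_filter.1 hσ).2).symm
    · intro a _
      simp
    · intro σ hσ
      rw [← hfix σ (Finset.mem_filter.1 hσ).2]
  rw [hsum]
  have hs2 : ∑ a : ZMod p, w p (Equiv.addLeft a) = 1 + ∑ a : ZMod p, a * (-1) ^ a.val := by
    have e : ∀ a : ZMod p, w p (Equiv.addLeft a) = (if a = 0 then 1 else 0) + a * (-1) ^ a.val := by
      intro a
      rw [w_rot]
      split_ifs with h
      · rw [h]; simp
      · simp
    rw [Finset.sum_congr rfl (fun a _ => e a), Finset.sum_add_distrib]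
    simp
  obtain ⟨r, hr⟩ := hp.odd_of_ne_two hp2
  have hs3 : ∑ a : ZMod p, a * (-1) ^ a.val = ∑ m ∈ Finset.range p, (m : ZMod p) * (-1) ^ m := by
    apply Finset.sum_nbij' (fun a : ZMod p => a.val) (fun m : ℕ => (m : ZMod p))
    · intro a _
      rw [Finset.mem_range]
      exact ZMod.val_lt a
    · intro m _; exact Finset.mem_univ _
    · intro a _
      simp
    · intro m hm
      rw [Finset.mem_range] at hm
      exact ZMod.val_natCast_of_lt hm
    · intro a _
      simp
  rw [hs2, hs3]
  have h4 : ∑ m ∈ Finset.range p, (m : ZMod p) * (-1) ^ m = (r : ZMod p) := by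
    conv_lhs => rw [show Finset.range p = Finset.range (2 * r + 1) by rw [← hr]]
    exact alt_sum r
  rw [h4]
  have h5 : ((2 * r + 1 : ℕ) : ZMod p) = 0 := by rw [← hr]; simp
  push_cast at h5
  linear_combination h5

/-- For every odd prime `p`, the permanent `D_p` of the `p × p` integer matrix with `(j,k)` entry
`|j - k| + δ_{jk}` (`1 ≤ j, k ≤ p`) satisfies `2 D_p ≡ 1 (mod p)`. -/
theorem result (p : ℕ) (hp : p.Prime) (hodd : p ≠ 2) :
    2 * Matrix.permanent (Matrix.of fun j k : Fin p =>
      |((j : ℤ) + 1) - ((k : ℤ) + 1)| + (if j = k then 1 else 0)) ≡ 1 [ZMOD p] := by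
  have : Fact p.Prime := ⟨hp⟩
  rw [← ZMod.intCast_eq_intCast_iff]
  obtain ⟨n, rfl⟩ : ∃ n, p = n + 1 := ⟨p - 1, by have := hp.pos; omega⟩
  have h := main_zmod (n + 1) hodd
  rw [Matrix.permanent]
  push_cast
  have e : ∑ σ : Equiv.Perm (Fin (n + 1)), ∏ i : Fin (n + 1),
      (((Matrix.of fun j k : Fin (n + 1) =>
      |((j : ℤ) + 1) - ((k : ℤ) + 1)| + (if j = k then 1 else 0)) (σ i) i : ℤ) : ZMod (n + 1))
      = ∑ σ : Equiv.Perm (ZMod (n + 1)), w (n + 1) σ := by
    apply Finset.sum_congr rfl
    intro σ _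
    unfold w
    apply Finset.prod_congr rfl
    intro i _
    unfold A
    congr 1
    simp only [Matrix.of_apply]
    rw [add_sub_add_right_eq_sub]
    rfl
  rw [e]
  exact h

end Pool.Agent.Results.MP_e1bcf3_nt.PermHalf
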